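import Pool.Agent.Y283.BD.Fn
import Pool.Agent.H806R3.BidC

/-! # The function `hh ((z₁+z₂)/2)` is not cyclic for any weight with a polynomial lower bound -/

set_option autoImplicit false

namespace Pool.Agent.Y283.BD

open Filter Topology Real
open scoped Nat
open Pool.Agent.H806R3.Bid (antidiag_of_hasSum tsum_antidiag diag diag_eval sg re_cayley norm_sg)

/-- polynomial sums -/
lemma sum_poly_le (N : ℕ) {r : ℝ} (h0 : 0 ≤ r) (h1 : r < 1) (n : ℕ) :
    ∑ m ∈ Finset.range n, ((m : ℝ) + 1) ^ N * r ^ m ≤ (N ! : ℝ) / (1 - r) ^ (N + 1) := by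
  have hr : ‖r‖ < 1 := by rwa [Real.norm_of_nonneg h0]
  have hs := (hasSum_choose_mul_geometric_of_norm_lt_one N hr).mul_left (N ! : ℝ)
  have h2 : ∀ m : ℕ, ((m : ℝ) + 1) ^ N * r ^ m ≤ (N ! : ℝ) * (((m + N).choose N : ℝ) * r ^ m) := by
    intro m
    rw [← mul_assoc]
    refine mul_le_mul_of_nonneg_right ?_ (by positivity)
    have h3 := Nat.pow_succ_le_ascFactorial (m + 1) N
    have h4 := Nat.ascFactorial_eq_factorial_mul_choose m N
    rw [h4] at h3
    exact_mod_cast h3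
  calc _ ≤ ∑ m ∈ Finset.range n, (N ! : ℝ) * (((m + N).choose N : ℝ) * r ^ m) :=
        Finset.sum_le_sum fun m _ => h2 m
    _ ≤ (N ! : ℝ) * (1 / (1 - r) ^ (N + 1)) :=
        sum_le_hasSum _ (fun m _ => by positivity) hs
    _ = _ := by ring

/-- growth on the diagonal -/
lemma growth {ω : ℕ × ℕ → ℝ} {N : ℕ} {c : ℝ} (hc : 0 < c)
    (hω : ∀ k : ℕ × ℕ, c ≤ ω k * ((k.1 : ℝ) + k.2 + 1) ^ N)
    {b : ℕ × ℕ → ℂ} {ph : ℂ → ℂ}
    (hb : ∀ z : ℂ, ‖z‖ < 1 → HasSum (fun k : ℕ × ℕ => b k * (z ^ k.1 * z ^ k.2)) (ph z))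
    {ε : ℝ} (hε : 0 ≤ ε) (hlt : ∑' k : ℕ × ℕ, ENNReal.ofReal (ω k * ‖b k‖ ^ 2) ≤ ENNReal.ofReal ε)
    {z : ℂ} (hz : ‖z‖ < 1) :
    ‖ph z‖ ^ 2 ≤ ε * (((N + 1)! : ℝ) / c / (1 - ‖z‖) ^ (N + 2)) := by
  have hω0 : ∀ k : ℕ × ℕ, 0 < ω k := by
    intro k
    have h1 := hc.trans_le (hω k)
    have h2 : (0:ℝ) < ((k.1 : ℝ) + k.2 + 1) ^ N := by positivity
    exact (pos_iff_pos_of_mul_pos h1).2 h2
  set β : ℕ → ℂ := fun m => ∑ k ∈ Finset.HasAntidiagonal.antidiagonal m, b k with hβ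
  set W : ℕ → ℝ := fun m => ∑ k ∈ Finset.HasAntidiagonal.antidiagonal m, ω k * ‖b k‖ ^ 2 with hW
  have hW0 : ∀ m, 0 ≤ W m := fun m => Finset.sum_nonneg fun k _ => by
    have := (hω0 k).le
    positivity
  have hsum : HasSum (fun m => β m * z ^ m) (ph z) := by
    refine (antidiag_of_hasSum (hb z hz)).congr_fun ?_ |> fun h => h
    intro m
    rw [hβ]
    simp only
    rw [Finset.sum_mul]
    refine Finset.sum_congr rfl fun k hk => ?_
    rw [← pow_add, Finset.HasAntidiagonal.mem_antidiagonal.1 hk]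
  have hβ2 : ∀ m, ‖β m‖ ^ 2 ≤ W m * (((m : ℝ) + 1) ^ (N + 1) / c) := by
    intro m
    calc ‖β m‖ ^ 2 ≤ (∑ k ∈ Finset.HasAntidiagonal.antidiagonal m, ‖b k‖) ^ 2 :=
          pow_le_pow_left₀ (norm_nonneg _) (norm_sum_le _ _) 2
      _ ≤ W m * ∑ k ∈ Finset.HasAntidiagonal.antidiagonal m, (ω k)⁻¹ := by
          refine Finset.sum_sq_le_sum_mul_sum_of_sq_le_mul _ (fun k _ => ?_) (fun k _ => ?_)
            (fun k _ => ?_)
          · have := (hω0 k).le
            positivity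
          · exact (inv_pos.2 (hω0 k)).le
          · have := (hω0 k).ne'
            have e : ω k * ‖b k‖ ^ 2 * (ω k)⁻¹ = ‖b k‖ ^ 2 := by field_simp
            rw [e]
      _ ≤ W m * (((m : ℝ) + 1) ^ (N + 1) / c) := by
          refine mul_le_mul_of_nonneg_left ?_ (hW0 m)
          have h1 : ∀ k ∈ Finset.HasAntidiagonal.antidiagonal m, (ω k)⁻¹ ≤ ((m : ℝ) + 1) ^ N / c := by
            intro k hk
            have e : (m : ℝ) = k.1 + k.2 := by
              rw [← Finset.HasAntidiagonal.mem_antidiagonal.1 hk]; push_cast; ring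
            rw [e, inv_le_iff_one_le_mul₀ (hω0 k), div_mul_eq_mul_div, le_div_iff₀ hc, one_mul,
              mul_comm]
            exact hω k
          refine (Finset.sum_le_sum h1).trans ?_
          rw [Finset.sum_const, Finset.Nat.card_antidiagonal, nsmul_eq_mul]
          apply le_of_eq
          push_cast
          ring
  have hWs : ∀ n, ∑ m ∈ Finset.range n, W m ≤ ε := by
    intro n
    rw [← ENNReal.ofReal_le_ofReal_iff hε]
    refine le_trans ?_ hlt
    rw [tsum_antidiag, ENNReal.ofReal_sum_of_nonneg (fun m _ => hW0 m)]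
    refine le_trans (le_of_eq ?_) (ENNReal.sum_le_tsum (Finset.range n))
    refine Finset.sum_congr rfl fun m _ => ?_
    rw [hW]
    simp only
    rw [ENNReal.ofReal_sum_of_nonneg]
    intro k _
    have := (hω0 k).le
    positivity
  set r := ‖z‖ with hr
  have hr0 : 0 ≤ r := norm_nonneg _
  have hpart : ∀ n, ‖∑ m ∈ Finset.range n, β m * z ^ m‖ ^ 2
      ≤ ε * (((N + 1)! : ℝ) / c / (1 - r) ^ (N + 2)) := by
    intro n
    calc ‖∑ m ∈ Finset.range n, β m * z ^ m‖ ^ 2
        ≤ (∑ m ∈ Finset.range n, ‖β m‖ * r ^ m) ^ 2 := by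
          refine pow_le_pow_left₀ (norm_nonneg _) ((norm_sum_le _ _).trans (le_of_eq ?_)) 2
          refine Finset.sum_congr rfl fun m _ => ?_
          rw [norm_mul, norm_pow]
      _ ≤ (∑ m ∈ Finset.range n, W m) *
          ∑ m ∈ Finset.range n, (((m : ℝ) + 1) ^ (N + 1) / c) * r ^ m := by
          refine Finset.sum_sq_le_sum_mul_sum_of_sq_le_mul _ (fun m _ => hW0 m)
            (fun m _ => by positivity) (fun m _ => ?_)
          have h1 := hβ2 m
          have h2 : (r ^ m) ^ 2 ≤ r ^ m := by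
            have h3 : r ^ m ≤ 1 := pow_le_one₀ hr0 hz.le
            have h4 : 0 ≤ r ^ m := by positivity
            nlinarith
          rw [mul_pow]
          calc ‖β m‖ ^ 2 * (r ^ m) ^ 2 ≤ (W m * (((m : ℝ) + 1) ^ (N + 1) / c)) * r ^ m := by
                refine mul_le_mul h1 h2 (by positivity) ?_
                have := hW0 m
                positivity
            _ = _ := by ring
      _ ≤ ε * (((N + 1)! : ℝ) / c / (1 - r) ^ (N + 2)) := by
          refine mul_le_mul (hWs n) ?_ (Finset.sum_nonneg fun m _ => by positivity) hε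
          have h1 := sum_poly_le (N + 1) hr0 hz n
          have e : ∑ m ∈ Finset.range n, (((m : ℝ) + 1) ^ (N + 1) / c) * r ^ m
              = (∑ m ∈ Finset.range n, ((m : ℝ) + 1) ^ (N + 1) * r ^ m) / c := by
            rw [Finset.sum_div]
            refine Finset.sum_congr rfl fun m _ => by ring
          rw [e]
          have e2 : ((N + 1)! : ℝ) / c / (1 - r) ^ (N + 2)
              = ((N + 1)! : ℝ) / (1 - r) ^ (N + 1 + 1) / c := by
            rw [div_right_comm]
          rw [e2]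
          exact div_le_div_of_nonneg_right h1 hc.le
  have ht := ((hsum.tendsto_sum_nat).norm).pow 2
  exact le_of_tendsto ht (Eventually.of_forall hpart)

/-- the auxiliary function on the horodisc is bounded -/
lemma horo (P : Polynomial ℂ) (L : ℕ) {B : ℝ}
    (h : ∀ s : ℂ, s ≠ 1 → ‖s - 1 / 2‖ = 1 / 2 →
      ‖P.eval s * (1 - s) ^ (L + 1) * Complex.exp (-uu s)‖ ≤ B) (hB : 0 ≤ B)
    {s : ℂ} (hs : ‖s - 1 / 2‖ ≤ 1 / 2) :
    ‖P.eval s * (1 - s) ^ (L + 1) * Complex.exp (-uu s)‖ ≤ B := by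
  have hnorm : ∀ t : ℂ, ‖t - 1 / 2‖ ≤ 1 / 2 → ‖t‖ ≤ 1 := by
    intro t ht
    have h1 : t = (t - 1 / 2) + 1 / 2 := by ring
    rw [h1]
    refine (norm_add_le _ _).trans ?_
    have : ‖(1 / 2 : ℂ)‖ = 1 / 2 := by simp
    rw [this]; linarith
  have hcl : closure (Metric.ball (1 / 2 : ℂ) (1 / 2)) = Metric.closedBall (1 / 2 : ℂ) (1 / 2) :=
    closure_ball _ (by norm_num)
  have hd : DiffContOnCl ℂ (fun s => P.eval s * (1 - s) ^ (L + 1) * Complex.exp (-uu s))
      (Metric.ball (1 / 2 : ℂ) (1 / 2)) := by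
    constructor
    · intro t ht
      have ht' : ‖t - 1 / 2‖ < 1 / 2 := by simpa [dist_eq_norm] using ht
      have ht1 : t ≠ 1 := by
        rintro rfl
        norm_num at ht'
      have hu := (hasDerivAt_uu (slit (hnorm t ht'.le) ht1)).differentiableAt
      have : DifferentiableAt ℂ (fun s => P.eval s * (1 - s) ^ (L + 1) * Complex.exp (-uu s)) t := by
        have hP := P.differentiable t
        exact ((hP.mul (by fun_prop)).mul hu.neg.cexp)
      exact this.differentiableWithinAt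
    · rw [hcl]
      intro t ht
      have ht' : ‖t - 1 / 2‖ ≤ 1 / 2 := by simpa [dist_eq_norm] using ht
      by_cases ht1 : t = 1
      · subst ht1
        unfold ContinuousWithinAt
        simp only [sub_self]
        rw [zero_pow (Nat.succ_ne_zero L), mul_zero, zero_mul]
        refine squeeze_zero_norm' (a := fun s => ‖P.eval s * (1 - s) ^ (L + 1)‖) ?_ ?_
        · refine Eventually.of_forall fun s => ?_
          rw [norm_mul]
          have := norm_exp_uu_le s
          nlinarith [norm_nonneg (P.eval s * (1 - s) ^ (L + 1))]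
        · have hc : Continuous fun s : ℂ => ‖P.eval s * (1 - s) ^ (L + 1)‖ := by
            have := P.continuous
            fun_prop
          have h2 := hc.tendsto 1
          simp only [sub_self] at h2
          rw [zero_pow (Nat.succ_ne_zero L), mul_zero, norm_zero] at h2
          exact h2.mono_left nhdsWithin_le_nhds
      · have hu := (hasDerivAt_uu (slit (hnorm t ht') ht1)).continuousAt
        have hP := P.continuous.continuousAt (x := t)
        have : ContinuousAt (fun s => P.eval s * (1 - s) ^ (L + 1) * Complex.exp (-uu s)) t :=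
          (hP.mul (by fun_prop)).mul hu.neg.cexp
        exact this.continuousWithinAt
  refine Complex.norm_le_of_forall_mem_frontier_norm_le Metric.isBounded_ball hd (C := B) ?_ ?_
  · intro t ht
    rw [frontier_ball _ (by norm_num)] at ht
    have ht' : ‖t - 1 / 2‖ = 1 / 2 := by simpa [dist_eq_norm] using ht
    by_cases ht1 : t = 1
    · subst ht1
      simp only [sub_self]
      rw [zero_pow (Nat.succ_ne_zero L), mul_zero, zero_mul, norm_zero]
      exact hB
    · exact h t ht1 ht'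
  · rw [hcl]
    simpa [dist_eq_norm] using hs

/-- The core: polynomial multiples of the function with a common bound of polynomial growth are
uniformly small at points of the radius close to one. -/
lemma core (C : ℝ) (K : ℕ) {δ : ℝ} (hδ : 0 < δ) : ∃ t : ℝ, 0 < t ∧ t < 1 ∧ ∀ P : Polynomial ℂ,
    (∀ s : ℂ, ‖s‖ < 1 → ‖P.eval s * hh s‖ ≤ C / (1 - ‖s‖) ^ K) →
      ‖P.eval (t : ℂ) * hh t‖ ≤ δ := by
  set A : ℝ := |C| with hA
  have hA0 : 0 ≤ A := abs_nonneg C
  set B : ℝ := Real.exp 1 * (A * 2 ^ K) with hB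
  have hB0 : 0 ≤ B := by positivity
  obtain ⟨x, hx1, hx⟩ : ∃ x : ℝ, 2 ≤ x ∧ B * (x ^ (2 * K) * Real.exp (-x)) < δ := by
    have h1 := (Real.tendsto_pow_mul_exp_neg_atTop_nhds_zero (2 * K)).const_mul B
    rw [mul_zero] at h1
    obtain ⟨x, hx⟩ := ((h1.eventually_lt_const hδ).and (eventually_ge_atTop 2)).exists
    exact ⟨x, hx.2, hx.1⟩
  have hx0 : 0 < x := by linarith
  set t : ℝ := 1 - 1 / x with ht
  have ht0 : 0 < t := by
    rw [ht]
    have : 1 / x ≤ 1 / 2 := by
      apply one_div_le_one_div_of_le <;> linarith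
    linarith
  have ht1 : t < 1 := by
    rw [ht]
    have : 0 < 1 / x := by positivity
    linarith
  refine ⟨t, ht0, ht1, fun P hP => ?_⟩
  -- the bound on the horocycle
  have hcirc : ∀ s : ℂ, s ≠ 1 → ‖s - 1 / 2‖ = 1 / 2 →
      ‖P.eval s * (1 - s) ^ (2 * K + 1) * Complex.exp (-uu s)‖ ≤ B := by
    intro s hs1 hs
    have hsq : s.re * s.re + s.im * s.im = s.re := by
      have h1 := Complex.sq_norm (s - 1 / 2)
      rw [hs, Complex.normSq_apply] at h1
      simp only [Complex.sub_re, Complex.sub_im] at h1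
      have e1 : (1 / 2 : ℂ).re = 1 / 2 := by simp
      have e2 : (1 / 2 : ℂ).im = 0 := by simp
      rw [e1, e2] at h1
      nlinarith
    have hn : ‖s‖ ^ 2 = s.re := by
      rw [Complex.sq_norm, Complex.normSq_apply, hsq]
    have hn1 : ‖1 - s‖ ^ 2 = 1 - ‖s‖ ^ 2 := by
      rw [Complex.sq_norm, Complex.normSq_apply]
      simp only [Complex.sub_re, Complex.sub_im, Complex.one_re, Complex.one_im]
      rw [hn]
      nlinarith
    have hd0 : 0 < ‖1 - s‖ := norm_pos_iff.2 (sub_ne_zero.2 (Ne.symm hs1))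
    have hs2 : ‖s‖ < 1 := by
      have : ‖s‖ ^ 2 < 1 := by nlinarith [pow_pos hd0 2]
      nlinarith [norm_nonneg s]
    have h3 : ‖1 - s‖ ^ 2 / 2 ≤ 1 - ‖s‖ := by
      rw [hn1]
      nlinarith [norm_nonneg s]
    have h6 : ‖P.eval s * hh s‖ ≤ A * 2 ^ K / ‖1 - s‖ ^ (2 * K) := by
      have h5 := hP s hs2
      have h51 : C / (1 - ‖s‖) ^ K ≤ A / (1 - ‖s‖) ^ K := by
        have : 0 < 1 - ‖s‖ := by linarith
        exact div_le_div_of_nonneg_right (le_abs_self C) (by positivity)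
      have h6 : A / (1 - ‖s‖) ^ K ≤ A / (‖1 - s‖ ^ 2 / 2) ^ K := by gcongr
      have h7 : A / (‖1 - s‖ ^ 2 / 2) ^ K = A * 2 ^ K / ‖1 - s‖ ^ (2 * K) := by
        rw [div_pow, pow_mul]
        field_simp
      linarith
    have h7 : ‖sg s‖ = Real.exp (-1) := by
      rw [norm_sg, ← hn1, div_self (pow_ne_zero 2 hd0.ne')]
    have h8 : ‖P.eval s * hh s‖
        = ‖P.eval s * (1 - s) ^ (2 * K + 1) * Complex.exp (-uu s)‖ * Real.exp (-1)
          / ‖1 - s‖ ^ (2 * K) := by
      rw [hh_split]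
      simp only [norm_mul, norm_pow]
      rw [h7, pow_succ]
      field_simp
    rw [h8] at h6
    have h11 : ‖P.eval s * (1 - s) ^ (2 * K + 1) * Complex.exp (-uu s)‖ * Real.exp (-1)
        ≤ A * 2 ^ K :=
      (div_le_div_iff_of_pos_right (pow_pos hd0 (2 * K))).1 h6
    have h12 : Real.exp 1 * Real.exp (-1) = 1 := by rw [← Real.exp_add]; norm_num
    calc ‖P.eval s * (1 - s) ^ (2 * K + 1) * Complex.exp (-uu s)‖
        = Real.exp 1 * (‖P.eval s * (1 - s) ^ (2 * K + 1) * Complex.exp (-uu s)‖ * Real.exp (-1)) := by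
          rw [mul_left_comm, h12, mul_one]
      _ ≤ _ := by
          rw [hB]
          exact mul_le_mul_of_nonneg_left h11 (Real.exp_pos _).le
  -- the point near one
  have h1t : 1 - t = 1 / x := by rw [ht]; ring
  have htn : ‖(t : ℂ)‖ = t := by rw [Complex.norm_real, Real.norm_of_nonneg ht0.le]
  have hthalf : ‖(t : ℂ) - 1 / 2‖ ≤ 1 / 2 := by
    have e : (t : ℂ) - 1 / 2 = ((t - 1 / 2 : ℝ) : ℂ) := by push_cast; ring
    rw [e, Complex.norm_real, Real.norm_eq_abs, abs_le]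
    constructor <;> linarith
  have hbd := horo P (2 * K) hcirc hB0 hthalf
  have hne : ‖1 - (t : ℂ)‖ = 1 / x := by
    have e : 1 - (t : ℂ) = ((1 - t : ℝ) : ℂ) := by push_cast; ring
    rw [e, Complex.norm_real, h1t, Real.norm_of_nonneg (by positivity)]
  have h2 : ‖P.eval (t : ℂ) * hh t‖
      = ‖P.eval (t : ℂ) * (1 - (t : ℂ)) ^ (2 * K + 1) * Complex.exp (-uu t)‖ * ‖sg t‖
        * x ^ (2 * K) := by
    rw [hh_split]
    simp only [norm_mul, norm_pow]
    rw [hne, pow_succ, one_div, inv_pow]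
    field_simp
  have h3 : ‖sg t‖ ≤ Real.exp (-x) := by
    rw [norm_sg, Real.exp_le_exp, hne, htn, neg_le_neg_iff]
    have e : (1 - t ^ 2) / (1 / x) ^ 2 = (1 + t) * x := by
      have : 1 - t ^ 2 = (1 / x) * (1 + t) := by rw [← h1t]; ring
      rw [this]
      field_simp
    rw [e]
    nlinarith
  rw [h2]
  calc _ ≤ B * Real.exp (-x) * x ^ (2 * K) := by gcongr
    _ = B * (x ^ (2 * K) * Real.exp (-x)) := by ring
    _ ≤ _ := hx.le

/-- For a weight with a polynomial lower bound the distance from `1` to the polynomial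
multiples of the function is positive. -/
lemma not_small {ω : ℕ × ℕ → ℝ} {N : ℕ} {c : ℝ} (hc : 0 < c)
    (hω : ∀ k : ℕ × ℕ, c ≤ ω k * ((k.1 : ℝ) + k.2 + 1) ^ N) :
    ∃ ε : ℝ, 0 < ε ∧ ∀ (p : MvPolynomial (Fin 2) ℂ) (b : ℕ × ℕ → ℂ),
      (∀ z : ℂ × ℂ, ‖z.1‖ < 1 → ‖z.2‖ < 1 →
        HasSum (fun k : ℕ × ℕ => b k * (z.1 ^ k.1 * z.2 ^ k.2))
          (MvPolynomial.eval ![z.1, z.2] p * hh ((z.1 + z.2) / 2) - 1)) →
      ¬ ∑' k : ℕ × ℕ, ENNReal.ofReal (ω k * ‖b k‖ ^ 2) ≤ ENNReal.ofReal ε := by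
  set A : ℝ := ((N + 1)! : ℝ) / c with hA
  have hA0 : 0 < A := by positivity
  set K : ℕ := N + 2 with hK
  obtain ⟨t, ht0, ht1, ht⟩ := core (2 + A) K (δ := 1 / 4) (by norm_num)
  have h1t : 0 < (1 - t) ^ K := pow_pos (by linarith) K
  refine ⟨1 / (4 * (A / (1 - t) ^ K) + 1), by positivity, fun p b hb hlt => ?_⟩
  set ε : ℝ := 1 / (4 * (A / (1 - t) ^ K) + 1) with hε
  have hε0 : 0 < ε := by positivity
  have hε1 : ε ≤ 1 := by
    rw [hε, div_le_one (by positivity)]
    have : 0 ≤ A / (1 - t) ^ K := by positivity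
    linarith
  set P := diag p with hP
  set ph : ℂ → ℂ := fun z => P.eval z * hh z - 1 with hph
  have hbph : ∀ z : ℂ, ‖z‖ < 1 → HasSum (fun k : ℕ × ℕ => b k * (z ^ k.1 * z ^ k.2)) (ph z) := by
    intro z hz
    have h1 := hb (z, z) hz hz
    simp only [add_self_div_two] at h1
    have e2 : ph z = MvPolynomial.eval ![z, z] p * hh z - 1 := by
      rw [hph]; simp only; rw [hP, diag_eval]
    rw [e2]
    exact h1
  have hgr : ∀ z : ℂ, ‖z‖ < 1 → ‖ph z‖ ^ 2 ≤ ε * (A / (1 - ‖z‖) ^ K) := fun z hz =>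
    growth hc hω hbph hε0.le hlt hz
  have h4 := ht P (fun s hs => by
    have h5 := hgr s hs
    have h6 : 0 < 1 - ‖s‖ := by linarith
    have h7 : 0 ≤ A / (1 - ‖s‖) ^ K := by positivity
    have h8 : ‖ph s‖ ≤ 1 + A / (1 - ‖s‖) ^ K := by
      nlinarith [sq_nonneg (‖ph s‖ - 1), norm_nonneg (ph s)]
    have h9 : ‖P.eval s * hh s‖ ≤ 1 + ‖ph s‖ := by
      have e : P.eval s * hh s = 1 + ph s := by rw [hph]; ring
      rw [e]
      refine (norm_add_le _ _).trans ?_
      rw [norm_one]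
    have h10 : (1 - ‖s‖) ^ K ≤ 1 := pow_le_one₀ h6.le (by linarith [norm_nonneg s])
    have h11 : 2 ≤ 2 / (1 - ‖s‖) ^ K := by
      rw [le_div_iff₀ (by positivity)]
      linarith
    rw [add_div]
    linarith)
  have htn : ‖(t : ℂ)‖ = t := by rw [Complex.norm_real, Real.norm_of_nonneg ht0.le]
  have h5 := hgr (t : ℂ) (by rw [htn]; exact ht1)
  rw [htn] at h5
  have h6 : ε * (A / (1 - t) ^ K) ≤ 1 / 4 := by
    rw [hε, div_mul_eq_mul_div, one_mul, div_le_iff₀ (by positivity)]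
    have : 0 ≤ A / (1 - t) ^ K := by positivity
    linarith
  have h7 : ‖ph t‖ ≤ 1 / 2 := by nlinarith [norm_nonneg (ph t)]
  have h8 : (1 : ℝ) ≤ ‖P.eval (t : ℂ) * hh t‖ + ‖ph t‖ := by
    have e : (1 : ℂ) = P.eval (t : ℂ) * hh t - ph t := by rw [hph]; ring
    calc (1 : ℝ) = ‖(1 : ℂ)‖ := norm_one.symm
      _ = ‖P.eval (t : ℂ) * hh t - ph t‖ := by rw [← e]
      _ ≤ _ := norm_sub_le _ _
  linarith

end Pool.Agent.Y283.BD
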