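import Pool.Agent.Y283.BD.Fn
import Pool.Agent.H806R3.BidD

/-! # The function `hh ((z₁+z₂)/2)` is outer on the bidisk (after `Pool.Agent.H806R3.BidD`) -/

set_option autoImplicit false

namespace Pool.Agent.Y283.BD

open Filter Topology Real MeasureTheory
open Pool.Agent.H806R3.Bid (cc norm_cc cont_cc mm ae_ne_one integral_mm avg_eq pk_bound cont_pk ne_one_of)

/-- `log |F|` -/
noncomputable def LL (u v : ℂ) : ℝ := Real.log ‖hh ((u + v) / 2)‖

lemma LL_comm (u v : ℂ) : LL u v = LL v u := by unfold LL; rw [add_comm]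

lemma half_le {u v : ℂ} (hu : ‖u‖ ≤ 1) (hv : ‖v‖ ≤ 1) : ‖(u + v) / 2‖ ≤ 1 := by
  rw [norm_div]
  have := norm_add_le u v
  have h2' : ‖(2:ℂ)‖ = 2 := by simp
  rw [h2', div_le_one (by norm_num)]
  linarith

lemma analyticAt_hh {s : ℂ} (hs : ‖s‖ ≤ 1) (h1 : s ≠ 1) : AnalyticAt ℂ hh s := by
  have ho : IsOpen {t : ℂ | 1 - t ∈ Complex.slitPlane} :=
    Complex.isOpen_slitPlane.preimage (by fun_prop)
  have h : DifferentiableOn ℂ hh {t : ℂ | 1 - t ∈ Complex.slitPlane} := fun t ht =>
    (hasDerivAt_hh ht).differentiableAt.differentiableWithinAt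
  exact h.analyticAt (ho.mem_nhds (slit hs h1))

lemma harm {u v : ℂ} (h : (u + v) / 2 ≠ 1) (h' : ‖(u + v) / 2‖ ≤ 1) :
    InnerProductSpace.HarmonicAt (LL u) v := by
  unfold LL
  have h1 : AnalyticAt ℂ (fun v => hh ((u + v) / 2)) v :=
    AnalyticAt.fun_comp (f := fun v => (u + v) / 2) (analyticAt_hh h' h) (by fun_prop)
  exact h1.harmonicAt_log_norm (hh_ne h)

lemma poisson1 {u : ℂ} (hu : ‖u‖ ≤ 1) (h1 : u ≠ 1) {w : ℂ} (hw : ‖w‖ < 1) :
    Real.circleAverage (fun v => poissonKernel 0 w v * LL u v) 0 1 = LL u w := by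
  have h : InnerProductSpace.HarmonicOnNhd (LL u) (Metric.closedBall 0 1) := fun v hv =>
    harm (ne_one_of hu (by simpa using hv) h1) (half_le hu (by simpa using hv))
  have := InnerProductSpace.HarmonicOnNhd.circleAverage_poissonKernel_smul h
    (w := w) (by simpa using hw)
  exact this

lemma contOn_LL {u : ℂ} (hu : ‖u‖ ≤ 1) (h1 : u ≠ 1) : ContinuousOn (LL u) (Metric.closedBall 0 1) := by
  intro v hv
  have h2 := ne_one_of hu (by simpa using hv) h1
  have h3 : ContinuousAt (fun v => hh ((u + v) / 2)) v :=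
    ContinuousAt.comp (f := fun v => (u + v) / 2) (analyticAt_hh (half_le hu (by simpa using hv)) h2).continuousAt (by fun_prop)
  exact (h3.norm.log (norm_ne_zero_iff.2 (hh_ne h2))).continuousWithinAt

lemma measurable_hh : Measurable hh := by
  unfold hh uu
  have : Measurable Complex.log := Complex.measurable_log
  fun_prop

lemma LL_le {u v : ℂ} (hu : ‖u‖ ≤ 1) (hv : ‖v‖ ≤ 1) : LL u v ≤ Real.log 4 := by
  have hs := half_le hu hv
  have h1 : ‖hh ((u + v) / 2)‖ ≤ 4 :=
    (norm_hh_le hs).trans ((norm_one_sub_le hs).trans (by norm_num))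
  unfold LL
  by_cases h0 : ‖hh ((u + v) / 2)‖ = 0
  · rw [h0, Real.log_zero]
    exact Real.log_nonneg (by norm_num)
  · exact Real.log_le_log (lt_of_le_of_ne (norm_nonneg _) (Ne.symm h0)) h1

lemma meas_LL : Measurable fun θ : ℝ × ℝ => LL (cc θ.1) (cc θ.2) := by
  unfold LL
  have h := cont_cc.measurable
  have h2 := measurable_hh
  fun_prop

/-- `log |F|` is integrable on the torus -/
lemma integrable_LL : Integrable (fun θ : ℝ × ℝ => LL (cc θ.1) (cc θ.2)) (mm.prod mm) := by
  have key : Integrable (fun θ : ℝ × ℝ => Real.log 4 - LL (cc θ.1) (cc θ.2)) (mm.prod mm) := by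
    rw [integrable_prod_iff (meas_LL.const_sub _).aestronglyMeasurable]
    have hi : ∀ u : ℂ, ‖u‖ ≤ 1 → u ≠ 1 → Integrable (fun θ => LL u (cc θ)) mm := by
      intro u hu h1
      have : Continuous fun θ => LL u (cc θ) := by
        refine (contOn_LL hu h1).comp_continuous cont_cc fun θ => ?_
        simp [norm_cc]
      unfold mm
      exact (this.integrableOn_Icc (a := 0) (b := 2 * π)).mono_set Set.Ioc_subset_Icc_self
    constructor
    · filter_upwards [ae_ne_one] with θ hθ
      exact (integrable_const _).sub (hi _ (norm_cc θ).le hθ)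
    · have h0 : (fun θ => ∫ θ', ‖Real.log 4 - LL (cc θ) (cc θ')‖ ∂mm)
          =ᵐ[mm] fun θ => 2 * π * (Real.log 4) - 2 * π * LL (cc θ) 0 := by
        filter_upwards [ae_ne_one] with θ hθ
        have h1 : ∀ θ', ‖Real.log 4 - LL (cc θ) (cc θ')‖ = Real.log 4 - LL (cc θ) (cc θ') := by
          intro θ'
          rw [Real.norm_of_nonneg]
          linarith [LL_le (norm_cc θ).le (norm_cc θ').le]
        simp only [h1]
        rw [integral_sub (integrable_const _) (hi _ (norm_cc θ).le hθ)]
        congr 1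
        · rw [integral_const, smul_eq_mul]
          unfold mm
          rw [Measure.real, Measure.restrict_apply_univ, Real.volume_Ioc, sub_zero,
            ENNReal.toReal_ofReal (by positivity)]
        · have h2 := poisson1 (norm_cc θ).le hθ (w := 0) (by simp)
          have h3 := avg_eq h2
          rw [← h3]
          refine integral_congr_ae (Eventually.of_forall fun θ' => ?_)
          simp [poissonKernel_def, norm_cc]
      rw [integrable_congr h0]
      refine (integrable_const _).sub (Integrable.const_mul ?_ _)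
      have h4 : Continuous fun θ => LL (cc θ) 0 := by
        have : (fun θ => LL (cc θ) 0) = fun θ => LL 0 (cc θ) := by
          ext θ; rw [LL_comm]
        rw [this]
        refine (contOn_LL (u := 0) (by simp) (by simp)).comp_continuous cont_cc fun θ => ?_
        simp [norm_cc]
      unfold mm
      exact (h4.integrableOn_Icc (a := 0) (b := 2 * π)).mono_set Set.Ioc_subset_Icc_self
  have h5 := (integrable_const (μ := mm.prod mm) (Real.log 4)).sub key
  refine h5.congr (Eventually.of_forall fun θ => ?_)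
  simp

/-- Poisson's formula on the bidisk -/
lemma poisson2 {z : ℂ × ℂ} (h1 : ‖z.1‖ < 1) (h2 : ‖z.2‖ < 1) :
    LL z.1 z.2 = ((2 * π)⁻¹) ^ 2 * ∫ θ : ℝ × ℝ, LL (cc θ.1) (cc θ.2) *
      (poissonKernel 0 z.1 (cc θ.1) * poissonKernel 0 z.2 (cc θ.2)) ∂(mm.prod mm) := by
  have hint : Integrable (fun θ : ℝ × ℝ => LL (cc θ.1) (cc θ.2) *
      (poissonKernel 0 z.1 (cc θ.1) * poissonKernel 0 z.2 (cc θ.2))) (mm.prod mm) := by
    refine integrable_LL.mul_bdd (c := 1 / (1 - ‖z.1‖) ^ 2 * (1 / (1 - ‖z.2‖) ^ 2)) ?_ ?_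
    · exact (((cont_pk h1).comp continuous_fst).mul ((cont_pk h2).comp continuous_snd)).aestronglyMeasurable
    · refine Eventually.of_forall fun θ => ?_
      rw [norm_mul]
      exact mul_le_mul (pk_bound h1 _) (pk_bound h2 _) (norm_nonneg _) (by positivity)
  rw [integral_prod _ hint]
  have e1 : (fun θ => ∫ θ', LL (cc θ) (cc θ') *
      (poissonKernel 0 z.1 (cc θ) * poissonKernel 0 z.2 (cc θ')) ∂mm)
      =ᵐ[mm] fun θ => 2 * π * (poissonKernel 0 z.1 (cc θ) * LL (cc θ) z.2) := by
    filter_upwards [ae_ne_one] with θ hθ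
    have h3 := avg_eq (poisson1 (norm_cc θ).le hθ h2)
    have h4 : (fun θ' => LL (cc θ) (cc θ') *
        (poissonKernel 0 z.1 (cc θ) * poissonKernel 0 z.2 (cc θ')))
        = fun θ' => poissonKernel 0 z.1 (cc θ) * (poissonKernel 0 z.2 (cc θ') * LL (cc θ) (cc θ')) := by
      ext θ'; ring
    rw [h4, integral_const_mul, h3]
    ring
  rw [integral_congr_ae e1, integral_const_mul]
  have hz1 : z.2 ≠ 1 := by
    intro h; rw [h] at h2; simp at h2
  have h5 := avg_eq (poisson1 h2.le hz1 h1)
  have h6 : (fun θ => poissonKernel 0 z.1 (cc θ) * LL (cc θ) z.2)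
      = fun θ => poissonKernel 0 z.1 (cc θ) * LL z.2 (cc θ) := by
    ext θ; rw [LL_comm]
  rw [h6, h5, LL_comm z.2 z.1]
  have : (2 * π) ≠ 0 := by positivity
  field_simp

end Pool.Agent.Y283.BD
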