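import Pool.Agent.H806R3.BidB

/-! # The function `(1-s) exp(-(1+s)/(1-s) - (1-s)^(-1/2))` and its Taylor coefficients -/

set_option autoImplicit false

namespace Pool.Agent.Y283.BD

open Filter Topology Real
open scoped Nat

/-- the principal branch of `(1-s)^(-1/2)` -/
noncomputable def uu (s : ℂ) : ℂ := Complex.exp (-(Complex.log (1 - s) / 2))

/-- the function of one variable -/
noncomputable def hh (s : ℂ) : ℂ := (1 - s) * Complex.exp (-((1 + s) / (1 - s)) - uu s)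

lemma uu_sq {s : ℂ} (hs : 1 - s ≠ 0) : uu s ^ 2 = (1 - s)⁻¹ := by
  rw [uu, ← Complex.exp_nat_mul]
  have : ((2 : ℕ) : ℂ) * -(Complex.log (1 - s) / 2) = -Complex.log (1 - s) := by
    push_cast; ring
  rw [this, Complex.exp_neg, Complex.exp_log hs]

lemma re_uu (s : ℂ) : 0 ≤ (uu s).re := by
  rw [uu, Complex.exp_re]
  refine mul_nonneg (Real.exp_pos _).le ?_
  have h1 : (-(Complex.log (1 - s) / 2)).im = -(Complex.arg (1 - s) / 2) := by
    rw [Complex.neg_im, ← Complex.log_im]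
    have : (Complex.log (1 - s) / 2).im = (Complex.log (1 - s)).im / 2 := by
      simp
    rw [this]
  rw [h1, Real.cos_neg]
  have h2 := Complex.arg_le_pi (1 - s)
  have h3 := Complex.neg_pi_lt_arg (1 - s)
  exact Real.cos_nonneg_of_neg_pi_div_two_le_of_le (by linarith) (by linarith)

lemma re_lt {s : ℂ} (hs : ‖s‖ ≤ 1) (h1 : s ≠ 1) : s.re < 1 := by
  rcases lt_or_ge s.re 1 with h | h
  · exact h
  · exfalso
    apply h1
    have h2 := Complex.re_le_norm s
    have h4 : s.re = 1 := by linarith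
    have h5 : s.im = 0 := by
      have h6 := Complex.sq_norm s
      rw [Complex.normSq_apply] at h6
      have h7 : ‖s‖ ^ 2 ≤ 1 := by nlinarith [norm_nonneg s]
      have h8 : s.im * s.im ≤ 0 := by rw [h4] at h6; linarith
      nlinarith [mul_self_nonneg s.im]
    exact Complex.ext (by simpa using h4) (by simpa using h5)

lemma slit {s : ℂ} (hs : ‖s‖ ≤ 1) (h1 : s ≠ 1) : 1 - s ∈ Complex.slitPlane := by
  left
  have := re_lt hs h1
  simp only [Complex.sub_re, Complex.one_re]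
  linarith

lemma norm_uu_le {s : ℂ} (hs : ‖s‖ ≤ 1) : ‖uu s‖ ≤ 2 * (uu s).re := by
  have h0 := re_uu s
  by_cases h1 : s = 1
  · have : uu s = 1 := by simp [uu, h1]
    rw [this]; simp
  · have hne : 1 - s ≠ 0 := sub_ne_zero.2 (Ne.symm h1)
    have h2 : 0 ≤ (uu s ^ 2).re := by
      rw [uu_sq hne, Complex.inv_re]
      have := re_lt hs h1
      refine div_nonneg ?_ (Complex.normSq_nonneg _)
      simp only [Complex.sub_re, Complex.one_re]
      linarith
    have h3 : (uu s ^ 2).re = (uu s).re ^ 2 - (uu s).im ^ 2 := by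
      rw [sq, Complex.mul_re]; ring
    have h4 := Complex.sq_norm (uu s)
    rw [Complex.normSq_apply] at h4
    have h5 := norm_nonneg (uu s)
    nlinarith

lemma norm_exp_uu_le (s : ℂ) : ‖Complex.exp (-uu s)‖ ≤ 1 := by
  rw [Complex.norm_exp, Complex.neg_re, Real.exp_le_one_iff]
  linarith [re_uu s]

lemma hh_split (s : ℂ) : hh s = (1 - s) * (H806R3.Bid.sg s * Complex.exp (-uu s)) := by
  rw [hh, H806R3.Bid.sg, ← Complex.exp_add, sub_eq_add_neg (-((1 + s) / (1 - s)))]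

lemma norm_hh_le_exp {s : ℂ} (hs : ‖s‖ ≤ 1) :
    ‖hh s‖ ≤ ‖1 - s‖ * Real.exp (-(‖uu s‖ / 2)) := by
  rw [hh_split, norm_mul, norm_mul]
  refine mul_le_mul_of_nonneg_left ?_ (norm_nonneg _)
  have h1 := H806R3.Bid.norm_sg_le hs
  have h2 : ‖Complex.exp (-uu s)‖ ≤ Real.exp (-(‖uu s‖ / 2)) := by
    rw [Complex.norm_exp, Complex.neg_re, Real.exp_le_exp]
    linarith [norm_uu_le hs]
  calc _ ≤ 1 * Real.exp (-(‖uu s‖ / 2)) := by gcongr
    _ = _ := one_mul _

lemma norm_hh_le {s : ℂ} (hs : ‖s‖ ≤ 1) : ‖hh s‖ ≤ ‖1 - s‖ := by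
  refine (norm_hh_le_exp hs).trans ?_
  have : Real.exp (-(‖uu s‖ / 2)) ≤ 1 := Real.exp_le_one_iff.2 (by linarith [norm_nonneg (uu s)])
  nlinarith [norm_nonneg (1 - s)]

lemma norm_one_sub_le {s : ℂ} (hs : ‖s‖ ≤ 1) : ‖1 - s‖ ≤ 2 := by
  refine (norm_sub_le _ _).trans ?_
  rw [norm_one]; linarith

lemma hh_ne {s : ℂ} (hs : s ≠ 1) : hh s ≠ 0 := by
  unfold hh
  exact mul_ne_zero (sub_ne_zero.2 (Ne.symm hs)) (Complex.exp_ne_zero _)

lemma hasDerivAt_uu {s : ℂ} (hs : 1 - s ∈ Complex.slitPlane) :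
    HasDerivAt uu (uu s ^ 3 / 2) s := by
  have hne : 1 - s ≠ 0 := Complex.slitPlane_ne_zero hs
  have h2 : HasDerivAt (fun s : ℂ => 1 - s) (-1) s := by
    simpa using (hasDerivAt_id s).const_sub 1
  have h3 := (((h2.clog hs).div_const 2).neg).cexp
  refine h3.congr_deriv ?_
  have h4 := uu_sq hne
  have h5 : uu s ^ 3 = uu s * (1 - s)⁻¹ := by rw [← h4]; ring
  rw [h5]
  show uu s * -(-1 / (1 - s) / 2) = uu s * (1 - s)⁻¹ / 2
  ring

lemma hasDerivAt_hh {s : ℂ} (hs : 1 - s ∈ Complex.slitPlane) :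
    HasDerivAt hh (hh s * -(uu s ^ 2 + 2 * uu s ^ 4 + uu s ^ 3 / 2)) s := by
  have hne : 1 - s ≠ 0 := Complex.slitPlane_ne_zero hs
  have h1 : HasDerivAt (fun s : ℂ => 1 + s) 1 s := by
    simpa using (hasDerivAt_id s).const_add 1
  have h2 : HasDerivAt (fun s : ℂ => 1 - s) (-1) s := by
    simpa using (hasDerivAt_id s).const_sub 1
  have h3 := (((h1.div h2 hne).neg).sub (hasDerivAt_uu hs)).cexp
  have h4 := h2.mul h3
  refine h4.congr_deriv ?_
  have h5 := uu_sq hne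
  have h6 : uu s ^ 4 = ((1 - s)⁻¹) ^ 2 := by rw [← h5]; ring
  simp only [Pi.div_apply, Pi.neg_apply, Pi.sub_apply]
  rw [h6, h5, hh]
  field_simp
  ring

/-- the transformation of the polynomial under differentiation -/
noncomputable def DD (P : Polynomial ℂ) : Polynomial ℂ :=
  P.derivative * (Polynomial.C (1 / 2) * Polynomial.X ^ 3)
    - P * (Polynomial.X ^ 2 + Polynomial.C 2 * Polynomial.X ^ 4
      + Polynomial.C (1 / 2) * Polynomial.X ^ 3)

/-- polynomials in `u` times `hh` -/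
noncomputable def pf (P : Polynomial ℂ) (s : ℂ) : ℂ := P.eval (uu s) * hh s

lemma hasDerivAt_pf (P : Polynomial ℂ) {s : ℂ} (hs : 1 - s ∈ Complex.slitPlane) :
    HasDerivAt (pf P) (pf (DD P) s) s := by
  have h1 : HasDerivAt (fun s => P.eval (uu s)) (P.derivative.eval (uu s) * (uu s ^ 3 / 2)) s :=
    (P.hasDerivAt (uu s)).comp s (hasDerivAt_uu hs)
  refine (h1.mul (hasDerivAt_hh hs)).congr_deriv ?_
  simp only [pf, DD, Polynomial.eval_sub, Polynomial.eval_mul, Polynomial.eval_add,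
    Polynomial.eval_C, Polynomial.eval_pow, Polynomial.eval_X]
  ring

lemma pf_bound (P : Polynomial ℂ) : ∃ C : ℝ, ∀ s : ℂ, ‖s‖ ≤ 1 → ‖pf P s‖ ≤ C := by
  induction P using Polynomial.induction_on' with
  | add p q hp hq =>
    obtain ⟨C1, h1⟩ := hp
    obtain ⟨C2, h2⟩ := hq
    refine ⟨C1 + C2, fun s hs => ?_⟩
    have : pf (p + q) s = pf p s + pf q s := by
      simp only [pf, Polynomial.eval_add]; ring
    rw [this]
    exact (norm_add_le _ _).trans (add_le_add (h1 s hs) (h2 s hs))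
  | monomial n a =>
    refine ⟨‖a‖ * (2 ^ n * (n ! : ℝ)) * 2, fun s hs => ?_⟩
    rw [pf, Polynomial.eval_monomial, norm_mul, norm_mul, norm_pow]
    set x := ‖uu s‖ with hx
    have hx0 : 0 ≤ x := norm_nonneg _
    have h1 := Real.pow_div_factorial_le_exp (x / 2) (by positivity) n
    have h2 : x ^ n ≤ 2 ^ n * (n ! : ℝ) * Real.exp (x / 2) := by
      rw [div_le_iff₀ (by positivity), div_pow, div_le_iff₀ (by positivity)] at h1
      linarith
    have h3 := norm_hh_le_exp hs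
    have h4 : x ^ n * ‖hh s‖ ≤ 2 ^ n * (n ! : ℝ) * 2 := by
      calc x ^ n * ‖hh s‖ ≤ (2 ^ n * (n ! : ℝ) * Real.exp (x / 2)) *
            (‖1 - s‖ * Real.exp (-(x / 2))) := by
              exact mul_le_mul h2 h3 (norm_nonneg _) (by positivity)
        _ = 2 ^ n * (n ! : ℝ) * ‖1 - s‖ * (Real.exp (x / 2) * Real.exp (-(x / 2))) := by ring
        _ = 2 ^ n * (n ! : ℝ) * ‖1 - s‖ := by
            rw [← Real.exp_add, add_neg_cancel, Real.exp_zero, mul_one]
        _ ≤ _ := by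
            have := norm_one_sub_le hs
            gcongr
    calc ‖a‖ * x ^ n * ‖hh s‖ = ‖a‖ * (x ^ n * ‖hh s‖) := by ring
      _ ≤ ‖a‖ * (2 ^ n * (n ! : ℝ) * 2) := by gcongr
      _ = _ := by ring

lemma slit' {s : ℂ} (hs : ‖s‖ < 1) : 1 - s ∈ Complex.slitPlane :=
  slit hs.le (by rintro rfl; simp at hs)

lemma iter_eq (m : ℕ) : ∀ s : ℂ, ‖s‖ < 1 → iteratedDeriv m hh s = pf (DD^[m] 1) s := by
  induction m with
  | zero =>
    intro s _
    simp [pf]
  | succ m ih =>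
    intro s hs
    rw [iteratedDeriv_succ, Function.iterate_succ_apply']
    have h1 : iteratedDeriv m hh =ᶠ[𝓝 s] pf (DD^[m] 1) := by
      have : Metric.ball (0:ℂ) 1 ∈ 𝓝 s := Metric.isOpen_ball.mem_nhds (by simpa using hs)
      filter_upwards [this] with t ht
      exact ih t (by simpa using ht)
    rw [h1.deriv_eq, (hasDerivAt_pf _ (slit' hs)).deriv]

lemma diffOn_iter (m : ℕ) : DifferentiableOn ℂ (iteratedDeriv m hh) (Metric.ball 0 1) := by
  have h : DifferentiableOn ℂ (pf (DD^[m] 1)) (Metric.ball 0 1) := fun s hs =>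
    (hasDerivAt_pf _ (slit' (by simpa using hs))).differentiableAt.differentiableWithinAt
  exact h.congr fun s hs => iter_eq m s (by simpa using hs)

lemma iter_bound (m : ℕ) : ∃ C : ℝ, 0 ≤ C ∧ ∀ n : ℕ,
    ‖iteratedDeriv (n + m) hh 0‖ ≤ (n ! : ℝ) * C := by
  obtain ⟨C, hC⟩ := pf_bound (DD^[m] 1)
  have hC0 : 0 ≤ C := (norm_nonneg _).trans (hC 0 (by simp))
  refine ⟨C, hC0, fun n => ?_⟩
  have h1 : iteratedDeriv (n + m) hh 0 = iteratedDeriv n (iteratedDeriv m hh) 0 := by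
    rw [iteratedDeriv_eq_iterate, iteratedDeriv_eq_iterate, iteratedDeriv_eq_iterate,
      Function.iterate_add_apply]
  rw [h1]
  have h2 : ∀ R : ℝ, 0 < R → R < 1 →
      ‖iteratedDeriv n (iteratedDeriv m hh) 0‖ * R ^ n ≤ (n ! : ℝ) * C := by
    intro R h0 hR
    have hd : DiffContOnCl ℂ (iteratedDeriv m hh) (Metric.ball 0 R) := by
      apply DifferentiableOn.diffContOnCl
      refine (diffOn_iter m).mono ?_
      rw [closure_ball _ h0.ne']
      exact Metric.closedBall_subset_ball hR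
    have := Complex.norm_iteratedDeriv_le_of_forall_mem_sphere_norm_le n h0 hd (C := C) (by
      intro z hz
      have hz1 : ‖z‖ = R := by simpa using hz
      rw [iter_eq m z (by rw [hz1]; exact hR)]
      exact hC z (by rw [hz1]; exact hR.le))
    rwa [le_div_iff₀ (by positivity)] at this
  have h3 : Tendsto (fun R : ℝ => ‖iteratedDeriv n (iteratedDeriv m hh) 0‖ * R ^ n) (𝓝[<] 1)
      (𝓝 (‖iteratedDeriv n (iteratedDeriv m hh) 0‖ * 1 ^ n)) := by
    have : Continuous fun R : ℝ => ‖iteratedDeriv n (iteratedDeriv m hh) 0‖ * R ^ n := by fun_prop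
    exact (this.tendsto 1).mono_left nhdsWithin_le_nhds
  rw [one_pow, mul_one] at h3
  refine le_of_tendsto h3 ?_
  have h01 : ∀ᶠ r : ℝ in 𝓝[<] 1, 0 < r :=
    (lt_mem_nhds (zero_lt_one (α := ℝ))).filter_mono nhdsWithin_le_nhds
  filter_upwards [h01, self_mem_nhdsWithin] with r h0 hr
  exact h2 r h0 hr

lemma exists_coeffs : ∃ c : ℕ → ℂ, (∀ z : ℂ, ‖z‖ < 1 → HasSum (fun n => c n * z ^ n) (hh z)) ∧
    ∀ M : ℕ, ∃ C : ℝ, ∀ n : ℕ, ((n : ℝ) + 1) ^ M * ‖c n‖ ≤ C := by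
  refine ⟨fun n => (n ! : ℂ)⁻¹ * iteratedDeriv n hh 0, ?_, ?_⟩
  · intro z hz
    have hd : DifferentiableOn ℂ hh (Metric.ball 0 1) := by
      have := diffOn_iter 0
      simpa using this
    have h := Complex.hasSum_taylorSeries_on_ball hd (z := z) (by simpa using hz)
    refine h.congr_fun ?_ |> fun h => h
    intro n
    simp only [sub_zero, smul_eq_mul]
    ring
  · intro M
    obtain ⟨C, hC0, hC⟩ := iter_bound M
    set c : ℕ → ℂ := fun n => (n ! : ℂ)⁻¹ * iteratedDeriv n hh 0 with hc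
    refine ⟨((M : ℝ) + 1) ^ M * C + ∑ i ∈ Finset.range M, ((i : ℝ) + 1) ^ M * ‖c i‖, fun n => ?_⟩
    have hs0 : 0 ≤ ∑ i ∈ Finset.range M, ((i : ℝ) + 1) ^ M * ‖c i‖ :=
      Finset.sum_nonneg fun i _ => by positivity
    rcases lt_or_ge n M with h | h
    · have h1 : ((n : ℝ) + 1) ^ M * ‖c n‖ ≤ ∑ i ∈ Finset.range M, ((i : ℝ) + 1) ^ M * ‖c i‖ :=
        Finset.single_le_sum (f := fun i : ℕ => ((i : ℝ) + 1) ^ M * ‖c i‖)
          (fun i _ => by positivity) (Finset.mem_range.2 h)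
      have h2 : 0 ≤ ((M : ℝ) + 1) ^ M * C := by positivity
      linarith
    · obtain ⟨l, rfl⟩ : ∃ l, n = l + M := ⟨n - M, by omega⟩
      have h1 : ((l : ℝ) + 1) ^ M * ‖c (l + M)‖ ≤ C := by
        have h2 : (l + 1) ^ M * (l !) ≤ (l + M)! := by
          have h3 := Nat.pow_succ_le_ascFactorial (l + 1) M
          have h4 := Nat.factorial_mul_ascFactorial l M
          rw [← h4, mul_comm]
          exact Nat.mul_le_mul_left _ h3
        have h3 : ((l : ℝ) + 1) ^ M * (l ! : ℝ) ≤ ((l + M)! : ℝ) := by exact_mod_cast h2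
        have h4 : ‖c (l + M)‖ = (((l + M)! : ℝ))⁻¹ * ‖iteratedDeriv (l + M) hh 0‖ := by
          rw [hc]
          simp only [norm_mul, norm_inv, Complex.norm_natCast]
        have h5 := hC l
        have hp : (0 : ℝ) < ((l + M)! : ℝ) := by exact_mod_cast Nat.factorial_pos _
        have hq : (0 : ℝ) < (l ! : ℝ) := by exact_mod_cast Nat.factorial_pos _
        rw [h4]
        have h6 : ((l : ℝ) + 1) ^ M * ((((l + M)! : ℝ))⁻¹ * ‖iteratedDeriv (l + M) hh 0‖)
            ≤ ((l : ℝ) + 1) ^ M * ((((l + M)! : ℝ))⁻¹ * ((l ! : ℝ) * C)) := by gcongr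
        refine h6.trans ?_
        have h7 : ((l : ℝ) + 1) ^ M * ((((l + M)! : ℝ))⁻¹ * ((l ! : ℝ) * C))
            = (((l : ℝ) + 1) ^ M * (l ! : ℝ)) / ((l + M)! : ℝ) * C := by
          field_simp
        rw [h7]
        have h8 : (((l : ℝ) + 1) ^ M * (l ! : ℝ)) / ((l + M)! : ℝ) ≤ 1 := by
          rw [div_le_one hp]; exact h3
        nlinarith
      have h2 : (((l + M : ℕ) : ℝ) + 1) ^ M ≤ ((M : ℝ) + 1) ^ M * ((l : ℝ) + 1) ^ M := by
        rw [← mul_pow]
        apply pow_le_pow_left₀ (by positivity)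
        push_cast
        have h3 : (0 : ℝ) ≤ M := Nat.cast_nonneg _
        have h4 : (0 : ℝ) ≤ l := Nat.cast_nonneg _
        nlinarith
      have h3 : (((l + M : ℕ) : ℝ) + 1) ^ M * ‖c (l + M)‖ ≤ ((M : ℝ) + 1) ^ M * C := by
        calc _ ≤ ((M : ℝ) + 1) ^ M * ((l : ℝ) + 1) ^ M * ‖c (l + M)‖ := by gcongr
          _ = ((M : ℝ) + 1) ^ M * (((l : ℝ) + 1) ^ M * ‖c (l + M)‖) := by ring
          _ ≤ _ := by gcongr
      linarith

open H806R3.Bid in
lemma F_coeffs : ∃ a : ℕ × ℕ → ℂ, (∀ z : ℂ × ℂ, ‖z.1‖ < 1 → ‖z.2‖ < 1 →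
      HasSum (fun k : ℕ × ℕ => a k * (z.1 ^ k.1 * z.2 ^ k.2)) (hh ((z.1 + z.2) / 2))) ∧
    ∀ M : ℕ, ∃ C : ℝ, ∀ k : ℕ × ℕ, ((k.1 : ℝ) + k.2 + 1) ^ M * ‖a k‖ ≤ C := by
  obtain ⟨c, hc, hc2⟩ := exists_coeffs
  refine ⟨fun k => c (k.1 + k.2) * (((k.1 + k.2).choose k.1 : ℂ) / 2 ^ (k.1 + k.2)), ?_, ?_⟩
  · intro z h1 h2
    have hs : ‖(z.1 + z.2) / 2‖ < 1 := by
      rw [norm_div]
      have := norm_add_le z.1 z.2
      have h2' : ‖(2:ℂ)‖ = 2 := by simp
      rw [h2', div_lt_one (by norm_num)]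
      linarith
    apply hasSum_of_antidiag
    · refine (hc _ hs).congr_fun ?_ |> fun h => h
      intro m
      rw [← binom_avg, Finset.mul_sum]
      refine Finset.sum_congr rfl fun k hk => ?_
      simp only [Finset.HasAntidiagonal.mem_antidiagonal.1 hk]
      ring
    · set ρ : ℝ := (‖z.1‖ + ‖z.2‖) / 2 with hρ
      have hρ0 : 0 ≤ ρ := by positivity
      have hρ1 : ‖(ρ : ℂ)‖ < 1 := by
        rw [Complex.norm_real, Real.norm_of_nonneg hρ0, hρ]; linarith
      refine (hc _ hρ1).summable.norm.congr fun m => ?_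
      rw [norm_mul, norm_pow, Complex.norm_real, Real.norm_of_nonneg hρ0, hρ, ← binom_avg,
        Finset.mul_sum]
      refine Finset.sum_congr rfl fun k hk => ?_
      simp only [Finset.HasAntidiagonal.mem_antidiagonal.1 hk]
      simp only [norm_mul, norm_div, norm_pow, Complex.norm_natCast, Complex.norm_ofNat]
      ring
  · intro M
    obtain ⟨C, hC⟩ := hc2 M
    refine ⟨C, fun k => ?_⟩
    have h1 := hC (k.1 + k.2)
    have h2 : ‖(((k.1 + k.2).choose k.1 : ℂ) / 2 ^ (k.1 + k.2))‖ ≤ 1 := by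
      rw [norm_div, norm_pow, Complex.norm_natCast, Complex.norm_ofNat, div_le_one (by positivity)]
      exact_mod_cast Nat.choose_le_two_pow _ _
    rw [norm_mul]
    have e : ((k.1 : ℝ) + k.2 + 1) = (((k.1 + k.2 : ℕ) : ℝ) + 1) := by push_cast; ring
    rw [e]
    refine le_trans ?_ h1
    rw [← mul_assoc]
    exact mul_le_of_le_one_right (by positivity) h2

end Pool.Agent.Y283.BD
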